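import Pool.Agent.MWKP.Stmts

/-!
# Row FNL of block MWKP (helper49)
-/

namespace Pool.Agent.MWKP.H49

open Pool.Agent.Helper14_MV Pool.Agent.Helper2_MV Pool.Agent.MWK Pool.Agent.MWKP

/-- row FNL -/
theorem fnl (hK : KclStmt) (hA : AdjStmt) (hD : DatStmt) : FnlStmt := by
  intro n θ hθ u v hag hWT hWR
  obtain ⟨m, hm⟩ := T.stb v
  obtain ⟨u', hu, huA, huR⟩ := hA n θ hθ m u v (hag m) hWT (fun k y x _ h => hWR k y x h)
  refine θ.trans hu (hD n θ hθ m v ?_ u' huA huR)
  intro P a b Q hW h1 h2
  have hdep := T.dag m (P ++ a :: b :: Q) v hW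
  obtain ⟨q, R, hQ, hq, hR⟩ := T.cut (fun z => Dp m (P ++ a :: b :: Q) z) (P ++ [a, b]) Q
  have hWe : P ++ a :: b :: Q = P ++ [a, b] ++ q ++ R := by
    rw [hQ]
    simp
  have hcnt := T.twc (P ++ a :: b :: Q) (P ++ [a, b]) q R m hWe hR
  have ha : Dp m (P ++ a :: b :: Q) a → a ∈ P := by
    intro h
    rcases h1 with h1 | h1
    · exact h1
    · exact absurd ((hdep m (by omega) a).1 h) h1
  have hb : Dp m (P ++ a :: b :: Q) b → b ∈ P := by
    intro h
    rcases h2 with h2 | h2
    · exact h2
    · exact absurd ((hdep m (by omega) b).1 h) h2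
  have hZ : ∀ z ∈ a :: b :: q, 2 ≤ (P ++ (a :: b :: q)).count z := by
    intro z hz
    have hzA : z ∈ P ++ [a, b] ++ q := by
      rw [List.append_assoc]
      exact List.mem_append_right _ (by simpa using hz)
    have he : (P ++ (a :: b :: q)).count z = (P ++ [a, b] ++ q).count z := by simp
    rw [he]
    by_cases hDp : Dp m (P ++ a :: b :: Q) z
    · rcases List.mem_cons.1 hz with rfl | hz2
      · have h4 := List.count_pos_iff.2 (ha hDp)
        have h5 : 0 < ([z, b] : List ℕ).count z := List.count_pos_iff.2 (by simp)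
        rw [List.count_append, List.count_append]
        omega
      · rcases List.mem_cons.1 hz2 with rfl | hz3
        · have h4 := List.count_pos_iff.2 (hb hDp)
          have h5 : 0 < ([a, z] : List ℕ).count z := List.count_pos_iff.2 (by simp)
          rw [List.count_append, List.count_append]
          omega
        · have h4 : z ∈ P ++ [a, b] := by
            by_contra hn
            exact hq z hz3 hn hDp
          have h5 := List.count_pos_iff.2 h4
          have h6 := List.count_pos_iff.2 hz3
          rw [List.count_append]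
          omega
    · refine hcnt z hzA ?_
      intro h
      exact hDp ((hdep m (by omega) z).2 (hm z ((hdep (m + 1) le_rfl z).1 h)))
  have hZ' : ∀ z ∈ b :: a :: q, 2 ≤ (P ++ (b :: a :: q)).count z := by
    intro z hz
    have he : (P ++ (b :: a :: q)).count z = (P ++ (a :: b :: q)).count z := by
      apply List.Perm.count_eq
      exact (List.Perm.swap a b q).append_left P
    rw [he]
    exact hZ z ((List.Perm.swap a b q).mem_iff.1 hz)
  have h4 := hK n θ hθ P (a :: b :: q) (b :: a :: q) R
    (fun l => (List.Perm.swap b a q).mem_iff) hZ hZ'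
    (fun l => by rw [(List.Perm.swap b a q).count_eq l])
  have e1 : P ++ a :: b :: Q = P ++ (a :: b :: q) ++ R := by
    rw [hQ, List.append_assoc]
    rfl
  have e2 : P ++ b :: a :: Q = P ++ (b :: a :: q) ++ R := by
    rw [hQ, List.append_assoc]
    rfl
  rw [e1, e2]
  exact h4

end Pool.Agent.MWKP.H49
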